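import Pool.Agent.W78.EC.Defs4

/-! EC-G4: from windows to all pairs. -/

set_option autoImplicit false

namespace Pool.Agent.W681.EC

open Finset Filter
open Pool.Agent.H376R2.MR
open Pool.Agent.W78.GA
open Pool.Agent.W78.EC

theorem abs_lam (n : ℕ) : |(lam n : ℝ)| = 1 := by
  unfold lam
  push_cast
  rw [abs_pow, abs_neg, abs_one, one_pow]

theorem abel (g f : ℕ → ℝ) (hf : ∀ n, 1 ≤ n → f (n + 1) ≤ f n)
    (hg : ∀ n, 1 ≤ n → ∑ X ∈ Icc 1 n, g X ≤ 0) :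
    ∀ n, 1 ≤ n → ∑ X ∈ Icc 1 n, g X * f X ≤ (∑ X ∈ Icc 1 n, g X) * f n := by
  intro n hn
  induction n, hn using Nat.le_induction with
  | base => simp
  | succ n hn ih =>
    rw [Finset.sum_Icc_succ_top (by omega), Finset.sum_Icc_succ_top (by omega), add_mul]
    have h1 := hg n hn
    have h2 := hf n hn
    have h3 : (∑ X ∈ Icc 1 n, g X) * f n ≤ (∑ X ∈ Icc 1 n, g X) * f (n + 1) :=
      mul_le_mul_of_nonpos_left h2 h1
    linarith

theorem cnt_sum {ι : Type} (S : Finset ι) (M : ι → ℕ) (f : ℕ → ℝ) (A : ℝ) (N : ℕ) (hN : 1 ≤ N)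
    (hf : ∀ n, 1 ≤ n → f (n + 1) ≤ f n) (hf0 : ∀ n, 1 ≤ n → 0 ≤ f n)
    (hM : ∀ p ∈ S, 1 ≤ M p ∧ M p ≤ N)
    (hc : ∀ X : ℕ, 1 ≤ X → ((S.filter (fun p => M p ≤ X)).card : ℝ) ≤ A * X) :
    ∑ p ∈ S, f (M p) ≤ A * ∑ X ∈ Icc 1 N, f X := by
  have h1 : ∑ p ∈ S, f (M p) = ∑ X ∈ Icc 1 N, ((S.filter (fun p => M p = X)).card : ℝ) * f X := by
    rw [← Finset.sum_fiberwise_of_maps_to (g := M) (t := Icc 1 N)
      (fun p hp => mem_Icc.2 (hM p hp))]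
    apply sum_congr rfl
    intro X _
    rw [← nsmul_eq_mul, ← Finset.sum_const]
    apply sum_congr rfl
    intro p hp
    rw [(mem_filter.1 hp).2]
  have h2 : ∀ n, 1 ≤ n → ∑ X ∈ Icc 1 n, (((S.filter (fun p => M p = X)).card : ℝ) - A) ≤ 0 := by
    intro n hn
    rw [Finset.sum_sub_distrib, Finset.sum_const, Nat.card_Icc, nsmul_eq_mul]
    have h3 : ∑ X ∈ Icc 1 n, ((S.filter (fun p => M p = X)).card : ℝ) =
        ((S.filter (fun p => M p ≤ n)).card : ℝ) := by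
      rw [Finset.card_eq_sum_card_fiberwise (f := M) (t := Icc 1 n)
        (s := S.filter (fun p => M p ≤ n))]
      · push_cast
        apply sum_congr rfl
        intro X hX
        congr 2
        ext p
        simp only [mem_filter]
        constructor
        · rintro ⟨h4, h5⟩
          exact ⟨⟨h4, h5 ▸ (mem_Icc.1 hX).2⟩, h5⟩
        · rintro ⟨⟨h4, _⟩, h5⟩
          exact ⟨h4, h5⟩
      · intro p hp
        have hp' := mem_filter.1 (mem_coe.1 hp)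
        exact mem_coe.2 (mem_Icc.2 ⟨(hM p hp'.1).1, hp'.2⟩)
    rw [h3]
    have h6 := hc n hn
    have h7 : ((n + 1 - 1 : ℕ) : ℝ) = n := by simp
    rw [h7]
    linarith
  have h3 := abel (fun X => ((S.filter (fun p => M p = X)).card : ℝ) - A) f hf h2 N hN
  have h4 : (∑ X ∈ Icc 1 N, (((S.filter (fun p => M p = X)).card : ℝ) - A)) * f N ≤ 0 :=
    mul_nonpos_of_nonpos_of_nonneg (h2 N hN) (hf0 N hN)
  have h5 : ∑ X ∈ Icc 1 N, (((S.filter (fun p => M p = X)).card : ℝ) - A) * f X =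
      ∑ X ∈ Icc 1 N, ((S.filter (fun p => M p = X)).card : ℝ) * f X - A * ∑ X ∈ Icc 1 N, f X := by
    rw [Finset.mul_sum, ← Finset.sum_sub_distrib]
    apply sum_congr rfl
    intro X _
    ring
  rw [h1]
  linarith

theorem sum_inv_le (N : ℕ) : ∑ X ∈ Icc 1 N, 1 / (X : ℝ) ≤ 1 + Real.log N := by
  have h := harmonic_le_one_add_log N
  rw [harmonic_eq_sum_Icc] at h
  push_cast at h
  simpa using h

theorem sum_inv_sq_le (N : ℕ) : ∑ X ∈ Icc 1 N, 1 / (X : ℝ) ^ 2 ≤ 2 := by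
  have h := sum_Ioo_inv_sq_le (α := ℝ) 0 (N + 1)
  have e : Ioo 0 (N + 1) = Icc 1 N := by
    ext x
    simp only [mem_Ioo, mem_Icc]
    omega
  rw [e] at h
  simpa using h

/-- tail of the series of inverse squares -/
theorem tail_le (N : ℕ) (Y : ℝ) (hY : 0 < Y) :
    ∑ X ∈ (Icc 1 N).filter (fun X : ℕ => Y ≤ (X : ℝ)), 1 / (X : ℝ) ^ 2 ≤ 2 / Y := by
  have h1 : 1 ≤ ⌈Y⌉₊ := Nat.one_le_ceil_iff.2 hY
  obtain ⟨k, hk⟩ : ∃ k, ⌈Y⌉₊ = k + 1 := ⟨⌈Y⌉₊ - 1, by omega⟩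
  have h := sum_Ioo_inv_sq_le (α := ℝ) k (N + 1)
  have h2 : Y ≤ (k : ℝ) + 1 := by
    have := Nat.le_ceil Y
    rw [hk] at this
    push_cast at this
    exact this
  calc _ ≤ ∑ X ∈ Ioo k (N + 1), 1 / (X : ℝ) ^ 2 := by
        apply sum_le_sum_of_subset_of_nonneg
        · intro X hX
          rw [mem_filter, mem_Icc] at hX
          rw [mem_Ioo]
          have h3 : ⌈Y⌉₊ ≤ X := Nat.ceil_le.2 hX.2
          omega
        · intro X _ _
          positivity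
    _ ≤ 2 / ((k : ℝ) + 1) := by simpa using h
    _ ≤ 2 / Y := div_le_div_of_nonneg_left (by norm_num) hY h2

theorem lower_sum (M N : ℕ) (hM : 1 ≤ M) (hMN : M ≤ N) :
    1 / (M : ℝ) - 1 / ((N : ℝ) + 1) ≤ ∑ X ∈ Icc M N, 1 / (X : ℝ) ^ 2 := by
  induction N, hMN using Nat.le_induction with
  | base =>
    rw [Finset.Icc_self, Finset.sum_singleton]
    have hM' : (0 : ℝ) < M := by exact_mod_cast hM
    rw [div_sub_div _ _ hM'.ne' (by positivity), div_le_div_iff₀ (by positivity) (by positivity)]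
    nlinarith [sq_nonneg (M : ℝ), mul_pos hM' hM']
  | succ N hN ih =>
    rw [Finset.sum_Icc_succ_top (by omega)]
    have hN' : (0 : ℝ) < N := by
      have : 0 < N := by omega
      exact_mod_cast this
    have h1 : 1 / ((N : ℝ) + 1) - 1 / ((N : ℝ) + 1 + 1) ≤ 1 / ((N : ℝ) + 1) ^ 2 := by
      rw [div_sub_div _ _ (by positivity) (by positivity),
        div_le_div_iff₀ (by positivity) (by positivity)]
      nlinarith [mul_pos hN' hN']
    push_cast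
    linarith

theorem upper_sum (M N : ℕ) (hM : 1 ≤ M) (hMN : M ≤ N) :
    ∑ X ∈ Icc M N, 1 / (X : ℝ) ^ 2 ≤ 1 / (M : ℝ) + 1 / (M : ℝ) ^ 2 := by
  have h := sum_Ioc_inv_sq_le_sub (α := ℝ) (k := M) (n := N) (by omega) hMN
  have e : Icc M N = insert M (Ioc M N) := by
    ext x
    simp only [mem_insert, mem_Ioc, mem_Icc]
    omega
  rw [e, Finset.sum_insert (by simp)]
  have h2 : (0 : ℝ) ≤ (N : ℝ)⁻¹ := by positivity
  simp only [one_div] at *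
  linarith

theorem W_bound (s θ : ℝ) (hs : 0 < s) (hθ : s ≤ θ) (N a b : ℕ) (ha : 1 ≤ a)
    (haN : a ≤ N) (hbN : b ≤ N) :
    |(∑ X ∈ Icc 1 N, if (a ≤ X ∧ b ≤ X) ∧ (s * X < a ∧ s * X < b) then 1 / (X : ℝ) ^ 2 else 0) -
      1 / ((max a b : ℕ) : ℝ)| ≤ 1 / ((max a b : ℕ) : ℝ) ^ 2 + 1 / (N : ℝ) +
      (if ((min a b : ℕ) : ℝ) ≤ θ * (max a b : ℕ) then 2 * (1 / ((max a b : ℕ) : ℝ))
        else 2 * (s / θ) * (1 / ((max a b : ℕ) : ℝ))) := by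
  set M := max a b with hM
  set m := min a b with hm
  have hM1 : 1 ≤ M := le_trans ha (le_max_left _ _)
  have hMN : M ≤ N := max_le haN hbN
  have hMp : (0 : ℝ) < M := by exact_mod_cast hM1
  have hNp : (0 : ℝ) < N := by
    have : 0 < N := by omega
    exact_mod_cast this
  have hθ0 : 0 < θ := lt_of_lt_of_le hs hθ
  have h1 : ∀ X : ℕ, ((a ≤ X ∧ b ≤ X) ∧ (s * X < a ∧ s * X < b)) ↔
      (M ≤ X ∧ s * X < m) := by
    intro X
    have e1 : M ≤ X ↔ (a ≤ X ∧ b ≤ X) := max_le_iff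
    have e2 : s * X < (m : ℝ) ↔ (s * X < a ∧ s * X < b) := by
      rw [hm, Nat.cast_min, lt_min_iff]
    rw [e1, e2]
  have h2 : (∑ X ∈ Icc 1 N, if (a ≤ X ∧ b ≤ X) ∧ (s * X < a ∧ s * X < b) then
      1 / (X : ℝ) ^ 2 else 0) = ∑ X ∈ Icc M N, 1 / (X : ℝ) ^ 2 -
      ∑ X ∈ Icc M N, if s * X < m then 0 else 1 / (X : ℝ) ^ 2 := by
    rw [← Finset.sum_sub_distrib]
    have e3 : Icc M N = (Icc 1 N).filter (fun X => M ≤ X) := by
      ext X
      simp only [mem_filter, mem_Icc]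
      omega
    rw [e3, Finset.sum_filter]
    apply sum_congr rfl
    intro X _
    by_cases c1 : M ≤ X
    · by_cases c2 : s * X < m
      · rw [if_pos ((h1 X).2 ⟨c1, c2⟩), if_pos c1, if_pos c2, sub_zero]
      · rw [if_neg (fun h => c2 ((h1 X).1 h).2), if_pos c1, if_neg c2, sub_self]
    · rw [if_neg (fun h => c1 ((h1 X).1 h).1), if_neg c1]
  have h3 : 0 ≤ ∑ X ∈ Icc M N, if s * X < m then 0 else 1 / (X : ℝ) ^ 2 := by
    apply Finset.sum_nonneg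
    intro X _
    split_ifs
    · exact le_rfl
    · positivity
  have hgen : ∀ Y : ℝ, 0 < Y → (∀ X : ℕ, M ≤ X → (m : ℝ) ≤ s * X → Y ≤ X) →
      (∑ X ∈ Icc M N, if s * X < m then 0 else 1 / (X : ℝ) ^ 2) ≤ 2 / Y := by
    intro Y hY hXY
    refine le_trans ?_ (tail_le N Y hY)
    rw [Finset.sum_filter]
    have e3 : Icc M N = (Icc 1 N).filter (fun X => M ≤ X) := by
      ext X
      simp only [mem_filter, mem_Icc]
      omega
    rw [e3, Finset.sum_filter]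
    apply Finset.sum_le_sum
    intro X _
    by_cases c1 : M ≤ X
    · rw [if_pos c1]
      by_cases c2 : s * X < m
      · rw [if_pos c2]
        split_ifs
        · positivity
        · exact le_rfl
      · rw [if_neg c2, if_pos (hXY X c1 (not_lt.1 c2))]
    · rw [if_neg c1]
      split_ifs
      · positivity
      · exact le_rfl
  have h4 : (∑ X ∈ Icc M N, if s * X < m then 0 else 1 / (X : ℝ) ^ 2) ≤
      (if (m : ℝ) ≤ θ * M then 2 * (1 / (M : ℝ)) else 2 * (s / θ) * (1 / (M : ℝ))) := by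
    split_ifs with c
    · have := hgen M hMp (fun X hX _ => by exact_mod_cast hX)
      rw [← mul_one_div] at this
      exact this
    · have := hgen (θ / s * M) (by positivity) (by
        intro X _ hX2
        rw [not_le] at c
        have e5 : θ * M < s * X := lt_of_lt_of_le c hX2
        rw [div_mul_eq_mul_div, div_le_iff₀ hs]
        linarith)
      calc _ ≤ _ := this
        _ = _ := by
          field_simp
  have h5 := upper_sum M N hM1 hMN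
  have h6 := lower_sum M N hM1 hMN
  have h7 : 1 / ((N : ℝ) + 1) ≤ 1 / (N : ℝ) :=
    one_div_le_one_div_of_le hNp (by linarith)
  have h8 : 0 ≤ 1 / (N : ℝ) := by positivity
  have h9 : 0 ≤ 1 / (M : ℝ) ^ 2 := by positivity
  rw [h2, abs_le]
  constructor
  · linarith
  · linarith

open scoped Classical in
theorem mem_SP (N : ℕ) (p : ℕ × ℕ) : p ∈ SP N ↔ ((1 ≤ p.1 ∧ p.1 ≤ N) ∧ (1 ≤ p.2 ∧ p.2 ≤ N)) ∧
    ∃ n : ℕ, p.1 * p.2 = n ^ 2 + 1 := by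
  unfold SP
  rw [mem_filter, mem_product, mem_Icc, mem_Icc]

open scoped Classical in
theorem card1 (C : ℝ) (hC : ∀ m M : ℕ, 1 ≤ m → m ≤ M →
    ((((Icc 1 m) ×ˢ (Icc 1 M)).filter (fun p => ∃ n : ℕ, p.1 * p.2 = n ^ 2 + 1)).card : ℝ) ≤
    C * Real.sqrt (m * M)) (N X : ℕ) (hX : 1 ≤ X) :
    (((SP N).filter (fun p => max p.1 p.2 ≤ X)).card : ℝ) ≤ C * X := by
  have h := hC X X hX le_rfl
  rw [Real.sqrt_mul_self (by positivity)] at h
  refine le_trans ?_ h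
  have : ((SP N).filter (fun p => max p.1 p.2 ≤ X)) ⊆
      ((Icc 1 X) ×ˢ (Icc 1 X)).filter (fun p => ∃ n : ℕ, p.1 * p.2 = n ^ 2 + 1) := by
    intro p hp
    rw [mem_filter, mem_SP, max_le_iff] at hp
    rw [mem_filter, mem_product, mem_Icc, mem_Icc]
    exact ⟨⟨⟨hp.1.1.1.1, hp.2.1⟩, ⟨hp.1.1.2.1, hp.2.2⟩⟩, hp.1.2⟩
  exact_mod_cast card_le_card this

open scoped Classical in
theorem card2 (C : ℝ) (hC : ∀ m M : ℕ, 1 ≤ m → m ≤ M →
    ((((Icc 1 m) ×ˢ (Icc 1 M)).filter (fun p => ∃ n : ℕ, p.1 * p.2 = n ^ 2 + 1)).card : ℝ) ≤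
    C * Real.sqrt (m * M)) (hC0 : 0 ≤ C) (θ : ℝ) (hθ0 : 0 < θ) (hθ1 : θ ≤ 1) (N X : ℕ)
    (hX : 1 ≤ X) :
    ((((SP N).filter (fun p => ((min p.1 p.2 : ℕ) : ℝ) ≤ θ * (max p.1 p.2 : ℕ))).filter
      (fun p => max p.1 p.2 ≤ X)).card : ℝ) ≤ 2 * C * Real.sqrt θ * X := by
  have hXp : (0 : ℝ) < X := by exact_mod_cast hX
  set m := ⌊θ * X⌋₊ with hm
  have hle : (m : ℝ) ≤ θ * X := Nat.floor_le (by positivity)
  by_cases hm0 : 1 ≤ m
  · have hmX : m ≤ X := by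
      have : (m : ℝ) ≤ X := le_trans hle (by nlinarith)
      exact_mod_cast this
    have h := hC m X hm0 hmX
    set A := ((Icc 1 m) ×ˢ (Icc 1 X)).filter (fun p : ℕ × ℕ => ∃ n : ℕ, p.1 * p.2 = n ^ 2 + 1)
      with hA
    have h1 : (((SP N).filter (fun p => ((min p.1 p.2 : ℕ) : ℝ) ≤ θ * (max p.1 p.2 : ℕ))).filter
      (fun p => max p.1 p.2 ≤ X)) ⊆ A ∪ A.image Prod.swap := by
      intro p hp
      rw [mem_filter, mem_filter, mem_SP] at hp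
      obtain ⟨⟨⟨⟨⟨h1, h2⟩, ⟨h3, h4⟩⟩, h5⟩, h6⟩, h7⟩ := hp
      have h8 : ((min p.1 p.2 : ℕ) : ℝ) ≤ θ * X := by
        refine le_trans h6 (mul_le_mul_of_nonneg_left ?_ hθ0.le)
        exact_mod_cast h7
      have h9 : min p.1 p.2 ≤ m := Nat.le_floor h8
      rw [mem_union]
      rcases le_total p.1 p.2 with h10 | h10
      · left
        rw [min_eq_left h10] at h9
        rw [max_eq_right h10] at h7
        rw [hA, mem_filter, mem_product, mem_Icc, mem_Icc]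
        exact ⟨⟨⟨h1, h9⟩, ⟨h3, h7⟩⟩, h5⟩
      · right
        rw [min_eq_right h10] at h9
        rw [max_eq_left h10] at h7
        rw [mem_image]
        refine ⟨(p.2, p.1), ?_, rfl⟩
        rw [hA, mem_filter, mem_product, mem_Icc, mem_Icc]
        refine ⟨⟨⟨h3, h9⟩, ⟨h1, h7⟩⟩, ?_⟩
        obtain ⟨n, hn⟩ := h5
        exact ⟨n, by rw [← hn]; ring⟩
    have h2 : ((((SP N).filter (fun p => ((min p.1 p.2 : ℕ) : ℝ) ≤ θ * (max p.1 p.2 : ℕ))).filter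
      (fun p => max p.1 p.2 ≤ X)).card : ℝ) ≤ (A.card : ℝ) + A.card := by
      have h3 := card_le_card h1
      have h4 := card_union_le A (A.image Prod.swap)
      have h5 : (A.image Prod.swap).card ≤ A.card := card_image_le
      have : (((SP N).filter (fun p => ((min p.1 p.2 : ℕ) : ℝ) ≤ θ * (max p.1 p.2 : ℕ))).filter
        (fun p => max p.1 p.2 ≤ X)).card ≤ A.card + A.card := by omega
      exact_mod_cast this
    have h3 : Real.sqrt (m * X) ≤ Real.sqrt θ * X := by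
      have : (m : ℝ) * X ≤ θ * ((X : ℝ) * X) := by nlinarith
      calc Real.sqrt (m * X) ≤ Real.sqrt (θ * ((X : ℝ) * X)) := Real.sqrt_le_sqrt this
        _ = Real.sqrt θ * X := by
          rw [Real.sqrt_mul hθ0.le, Real.sqrt_mul_self hXp.le]
    have h4 : C * Real.sqrt (m * X) ≤ C * (Real.sqrt θ * X) :=
      mul_le_mul_of_nonneg_left h3 hC0
    calc _ ≤ (A.card : ℝ) + A.card := h2
      _ ≤ C * (Real.sqrt θ * X) + C * (Real.sqrt θ * X) := by linarith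
      _ = _ := by ring
  · have h1 : (((SP N).filter (fun p => ((min p.1 p.2 : ℕ) : ℝ) ≤ θ * (max p.1 p.2 : ℕ))).filter
      (fun p => max p.1 p.2 ≤ X)) = ∅ := by
      rw [Finset.eq_empty_iff_forall_notMem]
      intro p hp
      rw [mem_filter, mem_filter, mem_SP] at hp
      obtain ⟨⟨⟨⟨⟨h1, h2⟩, ⟨h3, h4⟩⟩, h5⟩, h6⟩, h7⟩ := hp
      have h8 : ((min p.1 p.2 : ℕ) : ℝ) ≤ θ * X := by
        refine le_trans h6 (mul_le_mul_of_nonneg_left ?_ hθ0.le)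
        exact_mod_cast h7
      have h9 : min p.1 p.2 ≤ m := Nat.le_floor h8
      have h10 : 1 ≤ min p.1 p.2 := le_min h1 h3
      omega
    rw [h1, card_empty, Nat.cast_zero]
    positivity

open scoped Classical in
theorem AA_eq (h2 : S_CORR) (j : ℕ) (s : ℝ) (X : ℕ) (hX : 1 ≤ X) :
    AA j s 1 s 1 X = 4 * ∑ p ∈ (SP X).filter (fun p => p ≠ (1, 1)),
      if s * X < p.1 ∧ s * X < p.2 then (lam p.1 : ℝ) ^ j * lam p.2 else 0 := by
  have h := h2 X (fun a b => if s * X < a ∧ s * X < b then (lam a : ℝ) ^ j * lam b else 0)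
    (by exact_mod_cast hX)
  rw [Nat.floor_natCast] at h
  rw [← h]
  unfold AA
  simp only [Finset.sum_filter]
  apply sum_congr rfl
  intro e he
  have hD : (0 : ℤ) ^ 2 < 4 * 1 := by norm_num
  unfold dedge at he
  rw [mem_filter, mem_product, mem_pball hD, mem_pball hD] at he
  have e1 : (nm e.1 : ℝ) ≤ 1 * (X : ℝ) := by rw [one_mul]; exact he.1.1.2
  have e2 : (nm e.2 : ℝ) ≤ 1 * (X : ℝ) := by rw [one_mul]; exact he.1.2.2
  by_cases c1 : 0 < ip e.1 e.2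
  · by_cases c2 : s * X < nm e.1 ∧ s * X < nm e.2
    · rw [if_pos ⟨c1, c2.1, e1, c2.2, e2⟩, if_pos c1, if_pos c2]
      rfl
    · rw [if_neg (fun h3 => c2 ⟨h3.2.1, h3.2.2.2.1⟩), if_pos c1, if_neg c2]
  · rw [if_neg (fun h3 => c1 h3.1), if_neg c1]

open scoped Classical in
theorem main_eq (h2 : S_CORR) (j : ℕ) (s : ℝ) (N : ℕ) :
    ∑ X ∈ Icc 1 N, 1 / (X : ℝ) ^ 2 * AA j s 1 s 1 X =
      4 * ∑ p ∈ (SP N).filter (fun p => p ≠ (1, 1)), (lam p.1 : ℝ) ^ j * lam p.2 *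
        ∑ X ∈ Icc 1 N, if (p.1 ≤ X ∧ p.2 ≤ X) ∧ (s * X < p.1 ∧ s * X < p.2) then
          1 / (X : ℝ) ^ 2 else 0 := by
  have h1 : ∀ X ∈ Icc 1 N, 1 / (X : ℝ) ^ 2 * AA j s 1 s 1 X =
      4 * ∑ p ∈ (SP N).filter (fun p => p ≠ (1, 1)), (lam p.1 : ℝ) ^ j * lam p.2 *
        if (p.1 ≤ X ∧ p.2 ≤ X) ∧ (s * X < p.1 ∧ s * X < p.2) then 1 / (X : ℝ) ^ 2 else 0 := by
    intro X hX
    rw [mem_Icc] at hX
    rw [AA_eq h2 j s X hX.1]
    have e1 : (SP X).filter (fun p => p ≠ (1, 1)) =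
        ((SP N).filter (fun p => p ≠ (1, 1))).filter (fun p => p.1 ≤ X ∧ p.2 ≤ X) := by
      ext p
      simp only [mem_filter, mem_SP]
      constructor
      · rintro ⟨⟨⟨⟨h3, h4⟩, ⟨h5, h6⟩⟩, h7⟩, h8⟩
        exact ⟨⟨⟨⟨⟨h3, h4.trans hX.2⟩, ⟨h5, h6.trans hX.2⟩⟩, h7⟩, h8⟩, h4, h6⟩
      · rintro ⟨⟨⟨⟨⟨h3, h4⟩, ⟨h5, h6⟩⟩, h7⟩, h8⟩, h9, h10⟩
        exact ⟨⟨⟨⟨h3, h9⟩, ⟨h5, h10⟩⟩, h7⟩, h8⟩
    rw [e1, Finset.sum_filter, mul_left_comm, Finset.mul_sum]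
    congr 1
    apply sum_congr rfl
    intro p _
    by_cases c1 : p.1 ≤ X ∧ p.2 ≤ X
    · by_cases c2 : s * X < p.1 ∧ s * X < p.2
      · rw [if_pos c1, if_pos c2, if_pos ⟨c1, c2⟩]
        ring
      · rw [if_pos c1, if_neg c2, if_neg (fun h => c2 h.2)]
        ring
    · rw [if_neg c1, if_neg (fun h => c1 h.1)]
      ring
  rw [sum_congr rfl h1, ← Finset.mul_sum, Finset.sum_comm]
  congr 1
  apply sum_congr rfl
  intro p _
  rw [Finset.mul_sum]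

theorem abs_D (j a b : ℕ) : |(lam a : ℝ) ^ j * lam b| = 1 := by
  rw [abs_mul, abs_pow, abs_lam, abs_lam, one_pow, one_mul]

open scoped Classical in
theorem key (h2 : S_CORR) (C : ℝ) (hC : ∀ m M : ℕ, 1 ≤ m → m ≤ M →
    ((((Icc 1 m) ×ˢ (Icc 1 M)).filter (fun p => ∃ n : ℕ, p.1 * p.2 = n ^ 2 + 1)).card : ℝ) ≤
    C * Real.sqrt (m * M)) (hC0 : 0 ≤ C) (t : ℝ) (ht0 : 0 < t) (ht1 : t ≤ 1) (j N : ℕ)
    (hN : 1 ≤ N) :
    |∑ p ∈ SP N, (lam p.1 : ℝ) ^ j * lam p.2 * (1 / ((max p.1 p.2 : ℕ) : ℝ))| ≤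
      1 / 4 * |∑ X ∈ Icc 1 N, 1 / (X : ℝ) ^ 2 * AA j (t ^ 4) 1 (t ^ 4) 1 X| +
      (1 + 3 * C + 6 * C * t * (1 + Real.log N)) := by
  have hNp : (0 : ℝ) < N := by exact_mod_cast hN
  have hθ0 : 0 < t ^ 2 := by positivity
  have hθ1 : t ^ 2 ≤ 1 := pow_le_one₀ ht0.le ht1
  have hsθ : t ^ 4 ≤ t ^ 2 := pow_le_pow_of_le_one ht0.le ht1 (by norm_num)
  set W : ℕ × ℕ → ℝ := fun p => ∑ X ∈ Icc 1 N,
    if (p.1 ≤ X ∧ p.2 ≤ X) ∧ (t ^ 4 * X < p.1 ∧ t ^ 4 * X < p.2) then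
      1 / (X : ℝ) ^ 2 else 0 with hW
  set E : ℕ × ℕ → ℝ := fun p => 1 / ((max p.1 p.2 : ℕ) : ℝ) ^ 2 + 1 / (N : ℝ) +
      (if ((min p.1 p.2 : ℕ) : ℝ) ≤ t ^ 2 * (max p.1 p.2 : ℕ) then
        2 * (1 / ((max p.1 p.2 : ℕ) : ℝ))
        else 2 * (t ^ 4 / t ^ 2) * (1 / ((max p.1 p.2 : ℕ) : ℝ))) with hE
  have hEn : ∀ p, 0 ≤ E p := by
    intro p
    rw [hE]
    have : 0 ≤ (if ((min p.1 p.2 : ℕ) : ℝ) ≤ t ^ 2 * (max p.1 p.2 : ℕ) then
        2 * (1 / ((max p.1 p.2 : ℕ) : ℝ))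
        else 2 * (t ^ 4 / t ^ 2) * (1 / ((max p.1 p.2 : ℕ) : ℝ))) := by
      split_ifs <;> positivity
    positivity
  have hWE : ∀ p ∈ SP N, |W p - 1 / ((max p.1 p.2 : ℕ) : ℝ)| ≤ E p := by
    intro p hp
    rw [mem_SP] at hp
    exact W_bound (t ^ 4) (t ^ 2) (by positivity) hsθ N p.1 p.2 hp.1.1.1 hp.1.1.2 hp.1.2.2
  -- the sum of the errors
  have hM : ∀ p ∈ SP N, 1 ≤ max p.1 p.2 ∧ max p.1 p.2 ≤ N := by
    intro p hp
    rw [mem_SP] at hp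
    exact ⟨le_trans hp.1.1.1 (le_max_left _ _), max_le hp.1.1.2 hp.1.2.2⟩
  have a1 : ∀ n : ℕ, 1 ≤ n → 1 / ((n + 1 : ℕ) : ℝ) ≤ 1 / (n : ℝ) := by
    intro n hn
    have : (0 : ℝ) < n := by exact_mod_cast hn
    push_cast
    exact one_div_le_one_div_of_le this (by linarith)
  have a2 : ∀ n : ℕ, 1 ≤ n → 1 / ((n + 1 : ℕ) : ℝ) ^ 2 ≤ 1 / (n : ℝ) ^ 2 := by
    intro n hn
    have : (0 : ℝ) < n := by exact_mod_cast hn
    push_cast
    exact one_div_le_one_div_of_le (by positivity) (by nlinarith)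
  have s1 : ∑ p ∈ SP N, 1 / ((max p.1 p.2 : ℕ) : ℝ) ^ 2 ≤ C * 2 := by
    refine le_trans (cnt_sum (SP N) (fun p => max p.1 p.2) (fun n => 1 / (n : ℝ) ^ 2) C N hN a2
      (fun n _ => by positivity) hM (fun X hX => card1 C hC N X hX)) ?_
    exact mul_le_mul_of_nonneg_left (sum_inv_sq_le N) hC0
  have s2 : ∑ p ∈ SP N, 1 / ((max p.1 p.2 : ℕ) : ℝ) ≤ C * (1 + Real.log N) := by
    refine le_trans (cnt_sum (SP N) (fun p => max p.1 p.2) (fun n => 1 / (n : ℝ)) C N hN a1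
      (fun n _ => by positivity) hM (fun X hX => card1 C hC N X hX)) ?_
    exact mul_le_mul_of_nonneg_left (sum_inv_le N) hC0
  have s3 : ∑ p ∈ (SP N).filter (fun p => ((min p.1 p.2 : ℕ) : ℝ) ≤ t ^ 2 * (max p.1 p.2 : ℕ)),
      1 / ((max p.1 p.2 : ℕ) : ℝ) ≤ 2 * C * t * (1 + Real.log N) := by
    have hc3 : ∀ X : ℕ, 1 ≤ X → ((((SP N).filter (fun p => ((min p.1 p.2 : ℕ) : ℝ) ≤
        t ^ 2 * (max p.1 p.2 : ℕ))).filter (fun p => max p.1 p.2 ≤ X)).card : ℝ) ≤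
        2 * C * t * X := by
      intro X hX
      have h4 := card2 C hC hC0 (t ^ 2) hθ0 hθ1 N X hX
      rw [Real.sqrt_sq ht0.le] at h4
      exact h4
    have hM3 : ∀ p ∈ (SP N).filter (fun p => ((min p.1 p.2 : ℕ) : ℝ) ≤
        t ^ 2 * (max p.1 p.2 : ℕ)), 1 ≤ max p.1 p.2 ∧ max p.1 p.2 ≤ N :=
      fun p hp => hM p (mem_filter.1 hp).1
    have h5 := cnt_sum ((SP N).filter (fun p => ((min p.1 p.2 : ℕ) : ℝ) ≤
      t ^ 2 * (max p.1 p.2 : ℕ))) (fun p : ℕ × ℕ => max p.1 p.2) (fun n => 1 / (n : ℝ))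
      (2 * C * t) N hN a1 (fun n _ => by positivity) hM3 hc3
    have h6 : 2 * C * t * ∑ X ∈ Icc 1 N, 1 / (X : ℝ) ≤ 2 * C * t * (1 + Real.log N) :=
      mul_le_mul_of_nonneg_left (sum_inv_le N) (by positivity)
    exact le_trans h5 h6
  have s4 : ∑ p ∈ SP N, 1 / (N : ℝ) ≤ C := by
    rw [Finset.sum_const, nsmul_eq_mul]
    have h3 := card1 C hC N N hN
    have e : (SP N).filter (fun p => max p.1 p.2 ≤ N) = SP N := by
      rw [Finset.filter_eq_self]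
      exact fun p hp => (hM p hp).2
    rw [e] at h3
    rw [mul_one_div, div_le_iff₀ hNp]
    exact h3
  have hq : t ^ 4 / t ^ 2 = t ^ 2 := by
    field_simp
  have s5 : ∑ p ∈ SP N, (if ((min p.1 p.2 : ℕ) : ℝ) ≤ t ^ 2 * (max p.1 p.2 : ℕ) then
        2 * (1 / ((max p.1 p.2 : ℕ) : ℝ))
        else 2 * (t ^ 4 / t ^ 2) * (1 / ((max p.1 p.2 : ℕ) : ℝ))) ≤
      2 * (2 * C * t * (1 + Real.log N)) + 2 * t ^ 2 * (C * (1 + Real.log N)) := by
    have e1 : ∀ p ∈ SP N, (if ((min p.1 p.2 : ℕ) : ℝ) ≤ t ^ 2 * (max p.1 p.2 : ℕ) then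
        2 * (1 / ((max p.1 p.2 : ℕ) : ℝ))
        else 2 * (t ^ 4 / t ^ 2) * (1 / ((max p.1 p.2 : ℕ) : ℝ))) ≤
        2 * (if ((min p.1 p.2 : ℕ) : ℝ) ≤ t ^ 2 * (max p.1 p.2 : ℕ) then
          1 / ((max p.1 p.2 : ℕ) : ℝ) else 0) + 2 * t ^ 2 * (1 / ((max p.1 p.2 : ℕ) : ℝ)) := by
      intro p _
      rw [hq]
      have : 0 ≤ 2 * t ^ 2 * (1 / ((max p.1 p.2 : ℕ) : ℝ)) := by positivity
      split_ifs
      · linarith
      · linarith
    refine le_trans (Finset.sum_le_sum e1) ?_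
    rw [Finset.sum_add_distrib, ← Finset.mul_sum, ← Finset.mul_sum, ← Finset.sum_filter]
    have : 2 * t ^ 2 * ∑ p ∈ SP N, 1 / ((max p.1 p.2 : ℕ) : ℝ) ≤
        2 * t ^ 2 * (C * (1 + Real.log N)) := mul_le_mul_of_nonneg_left s2 (by positivity)
    linarith
  have hlog : 0 ≤ Real.log N := Real.log_nonneg (by exact_mod_cast hN)
  have s6 : ∑ p ∈ SP N, E p ≤ 3 * C + 6 * C * t * (1 + Real.log N) := by
    rw [hE, Finset.sum_add_distrib, Finset.sum_add_distrib]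
    have h3 : t ^ 2 ≤ t := by nlinarith
    have h4 : 2 * t ^ 2 * (C * (1 + Real.log N)) ≤ 2 * t * (C * (1 + Real.log N)) := by
      apply mul_le_mul_of_nonneg_right (by linarith)
      positivity
    linarith
  -- the comparison
  set R := (SP N).filter (fun p => p ≠ (1, 1)) with hR
  have b1 : ∑ X ∈ Icc 1 N, 1 / (X : ℝ) ^ 2 * AA j (t ^ 4) 1 (t ^ 4) 1 X =
      4 * ∑ p ∈ R, (lam p.1 : ℝ) ^ j * lam p.2 * W p := main_eq h2 j (t ^ 4) N
  have b2 : |∑ p ∈ R, (lam p.1 : ℝ) ^ j * lam p.2 * (1 / ((max p.1 p.2 : ℕ) : ℝ)) -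
      ∑ p ∈ R, (lam p.1 : ℝ) ^ j * lam p.2 * W p| ≤ ∑ p ∈ SP N, E p := by
    rw [← Finset.sum_sub_distrib]
    refine le_trans (Finset.abs_sum_le_sum_abs _ _) ?_
    refine le_trans ?_ (Finset.sum_le_sum_of_subset_of_nonneg (s := R) (t := SP N)
      (hR ▸ Finset.filter_subset (fun p : ℕ × ℕ => p ≠ (1, 1)) (SP N)) (fun p _ _ => hEn p))
    apply Finset.sum_le_sum
    intro p hp
    rw [← mul_sub, abs_mul, abs_D, one_mul, abs_sub_comm]
    exact hWE p (mem_filter.1 hp).1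
  have b3 : |∑ p ∈ SP N, (lam p.1 : ℝ) ^ j * lam p.2 * (1 / ((max p.1 p.2 : ℕ) : ℝ)) -
      ∑ p ∈ R, (lam p.1 : ℝ) ^ j * lam p.2 * (1 / ((max p.1 p.2 : ℕ) : ℝ))| ≤ 1 := by
    have e1 := Finset.sum_filter_add_sum_filter_not (SP N) (fun p : ℕ × ℕ => p ≠ (1, 1))
      (fun p : ℕ × ℕ => (lam p.1 : ℝ) ^ j * lam p.2 * (1 / ((max p.1 p.2 : ℕ) : ℝ)))
    rw [← e1, ← hR, add_sub_cancel_left]
    have e2 : (SP N).filter (fun p : ℕ × ℕ => ¬ (p ≠ (1, 1))) ⊆ {(1, 1)} := by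
      intro p hp
      rw [mem_filter, not_not] at hp
      exact mem_singleton.2 hp.2
    refine le_trans (Finset.abs_sum_le_sum_abs _ _) ?_
    refine le_trans (Finset.sum_le_sum_of_subset_of_nonneg e2 (fun p _ _ => abs_nonneg _)) ?_
    rw [Finset.sum_singleton, abs_mul, abs_D]
    norm_num
  have b4 : |∑ p ∈ R, (lam p.1 : ℝ) ^ j * lam p.2 * W p| =
      1 / 4 * |∑ X ∈ Icc 1 N, 1 / (X : ℝ) ^ 2 * AA j (t ^ 4) 1 (t ^ 4) 1 X| := by
    rw [b1, abs_mul, abs_of_pos (by norm_num : (0 : ℝ) < 4)]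
    ring
  have b5 := abs_le.1 b2
  have b6 := abs_le.1 b3
  rw [← b4, abs_le]
  have b7 := neg_abs_le (∑ p ∈ R, (lam p.1 : ℝ) ^ j * lam p.2 * W p)
  have b8 := le_abs_self (∑ p ∈ R, (lam p.1 : ℝ) ^ j * lam p.2 * W p)
  constructor
  · linarith [b5.1, b5.2, b6.1, b6.2]
  · linarith [b5.1, b5.2, b6.1, b6.2]

/-- EC-G4: from windows to all pairs -/
theorem fin1 (h1 : S_MAIN) (h2 : S_CORR) (h3 : S_SCNT) : S_FIN1 := by
  intro j
  obtain ⟨C, hC⟩ := h3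
  have hC0 : 0 ≤ C := by
    have h := hC 1 1 le_rfl le_rfl
    have h4 : (0 : ℝ) ≤ C * Real.sqrt ((1 : ℕ) * (1 : ℕ)) := le_trans (Nat.cast_nonneg _) h
    simpa using h4
  rw [Metric.tendsto_atTop]
  intro ε hε
  set t : ℝ := min (1 / 2) (ε / (24 * (C + 1))) with ht
  have ht0 : 0 < t := lt_min (by norm_num) (by positivity)
  have hlt : t < 1 := lt_of_le_of_lt (min_le_left _ _) (by norm_num)
  have ht1 : t ≤ 1 := hlt.le
  have ht2 : 6 * C * t ≤ ε / 4 := by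
    have h5 : t ≤ ε / (24 * (C + 1)) := min_le_right _ _
    rw [le_div_iff₀ (by positivity)] at h5
    nlinarith
  obtain ⟨N₀, hN₀⟩ := h1 j (t ^ 4) 1 (t ^ 4) 1 (by positivity)
    (pow_lt_one₀ ht0.le hlt (by norm_num))
    le_rfl (by positivity) (pow_lt_one₀ ht0.le hlt (by norm_num)) le_rfl ε hε
  have hlim : Tendsto (fun N : ℕ => Real.log N) atTop atTop :=
    Real.tendsto_log_atTop.comp tendsto_natCast_atTop_atTop
  obtain ⟨N₁, hN₁⟩ := (hlim.eventually_gt_atTop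
    ((1 + 3 * C + 6 * C * t) * 4 / ε)).exists_forall_of_atTop
  refine ⟨max (max N₀ N₁) 2, fun N hN => ?_⟩
  have g1 : N₀ ≤ N := le_trans (le_trans (le_max_left _ _) (le_max_left _ _)) hN
  have g2 : N₁ ≤ N := le_trans (le_trans (le_max_right _ _) (le_max_left _ _)) hN
  have g3 : 2 ≤ N := le_trans (le_max_right _ _) hN
  have g4 := hN₁ N g2
  have g5 := hN₀ N g1
  have hl : 0 < Real.log N := Real.log_pos (by exact_mod_cast g3)
  have g6 := key h2 C hC hC0 t ht0 ht1 j N (by omega)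
  rw [div_lt_iff₀ hε] at g4
  rw [dist_zero_right, Real.norm_eq_abs, abs_div, abs_of_pos hl, div_lt_iff₀ hl]
  have g7 : ∑ p ∈ SP N, (lam p.1 : ℝ) ^ j * lam p.2 / (max p.1 p.2 : ℝ) =
      ∑ p ∈ SP N, (lam p.1 : ℝ) ^ j * lam p.2 * (1 / ((max p.1 p.2 : ℕ) : ℝ)) := by
    apply sum_congr rfl
    intro p _
    rw [Nat.cast_max, mul_one_div]
  rw [g7]
  have g8 : 6 * C * t * Real.log N ≤ ε / 4 * Real.log N :=
    mul_le_mul_of_nonneg_right ht2 hl.le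
  nlinarith

end Pool.Agent.W681.EC
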